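import Pool.Agent.Gab7b_h87.CBp.DV
import Pool.Agent.Gab7b_h87.CBp.DG

/-! Certificate; see `Pool/Agent/Gab7b_h87/Ax.lean`. -/

set_option autoImplicit false
set_option maxRecDepth 100000

namespace Pool.Agent.Gab7b_h87.CBp

open Pool.Agent.Gab7b_h87.Sat

/-- axioms -/
def l3 : List Ax := [.gd 3 3 5 2,
  .g3 15619,
  .gr 18 48,
  .gd 5 9 3 1,
  .ex 8207 4 [12] [9,11],
  .ex 13825 7 [4] [1,11],
  .no 76 100 3 3,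
  .g2 3189,
  .ex 14849 10 [8] [1,4],
  .ex 244 3 [1] [10,11],
  .gr 34 24,
  .no 67 11 20 96,
  .g2 2223,
  .gd 1 4 1 3,
  .ex 3460 6 [3] [5,9],
  .ex 9223 5 [4] [9,12],
  .ex 488 9 [11] [1,4],
  .gd 64 64 5 3,
  .gd 36 72 3 5,
  .g1 11921,
  .ex 632 8 [2] [7,10],
  .ex 12833 10 [1] [2,3],
  .ex 436 3 [6] [1,9],
  .ex 15488 8 [0] [2,9],
  .ex 8715 10 [12] [4,5],
  .ex 2408 9 [10] [2,7],
  .ex 8432 3 [1] [9,10],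
  .no 19 14 96 96,
  .ex 5889 11 [4] [7,13],
  .ex 59 2 [9] [6,8],
  .gd 0 0 2 5,
  .g1 1657,
  .g2 2293,
  .ex 314 6 [0] [9,10],
  .g1 10115,
  .g2 2267,
  .ex 744 8 [0] [1,4],
  .ex 12803 10 [11] [3,4],
  .ex 376 9 [11] [2,7],
  .g2 251,
  .ex 8243 3 [10] [2,6],
  .gd 2 4 0 1,
  .ex 13826 11 [0] [6,8],
  .ex 2156 1 [4] [7,10],
  .g1 607,
  .ex 242 3 [13] [9,11],
  .no 19 26 96 96,
  .ex 7040 6 [3] [10,13],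
  .ex 976 3 [2] [5,10],
  .ex 752 3 [11] [1,2],
  .gr 65 18,
  .no 112 97 3 24,
  .ex 1984 4 [3] [5,11],
  .ex 8243 2 [9] [3,12],
  .ex 47 4 [6] [9,10],
  .ex 14849 1 [2] [7,10],
  .gr 48 17,
  .g2 2351,
  .ex 314 6 [0] [9,12],
  .g1 3985,
  .ex 107 4 [13] [7,10],
  .ex 12803 10 [8] [7,11],
  .ex 8235 4 [11] [2,12],
  .ex 625 7 [8] [3,13],
  .ex 12549 11 [10] [1,4],
  .ex 496 10 [9] [1,2],
  .ex 118 3 [0] [10,11],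
  .ex 696 6 [8] [0,1],
  .ex 12834 10 [0] [2,3],
  .g1 827,
  .ex 9731 11 [12] [5,7],
  .g1 637,
  .ex 124 1 [10] [7,8],
  .ex 13952 8 [0] [2,4],
  .ex 2784 3 [4] [8,10],
  .ex 8207 12 [10] [4,5],
  .g1 7057,
  .ex 15361 7 [4] [1,9],
  .ex 122 2 [0] [8,9],
  .ex 15362 9 [0] [3,7],
  .gd 96 96 3 0,
  .ex 2976 10 [12] [3,6],
  .ex 8207 4 [5] [6,12],
  .ex 47 13 [9] [4,6],
  .ex 2276 10 [8] [1,4],
  .ex 8231 6 [10] [3,4],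
  .g1 8507,
  .ex 13569 9 [1] [2,4],
  .ex 1760 8 [11] [1,4],
  .ex 12803 11 [4] [6,10],
  .ex 15104 10 [7] [0,2],
  .ex 7552 13 [3] [2,6],
  .ex 4119 11 [13] [5,9],
  .ex 8339 3 [12] [10,11],
  .ex 1840 13 [0] [6,7],
  .ex 12299 4 [2] [9,11],
  .ex 818 6 [3] [10,13],
  .ex 234 4 [13] [9,11],
  .ex 1984 11 [12] [4,5],
  .gd 1 4 3 3,
  .gd 80 72 2 4,
  .ex 12809 8 [10] [2,4],
  .ex 8355 4 [3] [10,11],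
  .ex 122 7 [11] [0,2],
  .ex 1760 8 [4] [1,11],
  .ex 9025 12 [10] [4,5],
  .ex 376 7 [9] [0,2],
  .ex 2784 10 [2] [3,8],
  .gd 3 3 4 3,
  .rl [2,4] [2,3],
  .no 13 11 96 96,
  .ex 3841 13 [12] [4,5],
  .ex 488 11 [10] [4,9],
  .ex 752 8 [3] [0,10],
  .ex 244 3 [1] [8,10],
  .ex 817 6 [3] [10,13],
  .ex 8207 4 [5] [9,12],
  .no 84 88 3 3,
  .ex 1760 8 [1] [4,11],
  .ex 7552 9 [4] [6,13],
  .ex 124 1 [0] [9,11],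
  .gr 10 18,
  .ex 11777 12 [4] [1,8],
  .rl [0,1,4] [3,4,6],
  .ex 124 8 [10] [1,7],
  .ex 8835 11 [10] [4,5],
  .ex 14849 8 [3] [1,2],
  .ex 880 10 [2] [3,7],
  .ex 944 6 [10] [3,13],
  .ex 3460 5 [4] [6,9],
  .ex 3968 12 [13] [5,6],
  .gd 68 36 4 6,
  .ex 944 10 [11] [3,6],
  .ex 11267 4 [2] [9,12],
  .gd 8 8 1 1,
  .ex 47 4 [10] [6,13],
  .ex 1488 9 [11] [2,5],
  .ex 11777 7 [4] [1,12],
  .ex 55 13 [12] [3,6],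
  .sx 4064 9 [0,1,2,3,4,12,13],
  .ex 61 8 [9] [1,6],
  .ex 110 4 [10] [7,11],
  .ex 4179 13 [5] [2,3],
  .ex 632 2 [1] [8,11],
  .ex 11777 12 [1] [4,7],
  .g1 14859,
  .ex 4123 2 [5] [11,13],
  .ex 13696 1 [3] [9,11],
  .sx 15875 9 [2,3,4,5,6,7,8],
  .ex 8249 2 [9] [1,7],
  .ex 188 1 [9] [6,8],
  .ex 8715 8 [11] [2,4],
  .g3 14375,
  .ex 13057 10 [1] [4,5],
  .ex 8207 4 [12] [5,9],
  .ex 936 11 [10] [4,6],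
  .ex 1936 5 [3] [6,11],
  .ex 4881 7 [5] [10,13],
  .ex 1480 4 [2] [9,12],
  .ex 13825 8 [4] [1,11],
  .rl [2,4] [3,4],
  .ex 12561 1 [3] [2,11],
  .g2 2365,
  .ex 488 10 [11] [4,9],
  .g1 11027,
  .g3 14411,
  .gd 4 4 4 6,
  .g1 1339,
  .ex 3968 5 [2] [12,13],
  .ex 124 7 [8] [0,1],
  .no 35 11 72 80,
  .ex 12419 8 [10] [3,4],
  .ex 12307 6 [11] [2,3],
  .ex 7808 6 [3] [8,13],
  .ex 8243 6 [8] [3,12],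
  .ex 13184 5 [0] [10,11],
  .ex 9731 12 [11] [2,5],
  .no 21 13 96 96,
  .ex 12299 10 [11] [2,6],
  .gd 2 16 0 1,
  .ex 12299 2 [4] [7,9],
  .ex 1952 6 [4] [11,12],
  .ex 59 2 [13] [8,10],
  .g1 5779,
  .gd 1 4 2 3]

theorem a3 : axchk ⟨7, 127, 51, [(3, 2), (3, 3), (4, 2), (5, 1), (6, 0)], [], [], [0, 1, 2]⟩ (Tr.get ⟨9, 0, 0, 0⟩ v) (Tr.get 0 g) l3 3185 3000 = true := by
  decide +kernel

end Pool.Agent.Gab7b_h87.CBp
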